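import Pool.Agent.H93.EN.Targets4

/-!
# Bright corners: mollification does not lose mass (row LOW of en_modules)
-/

set_option autoImplicit false

namespace Pool.Agent.H7.EN

open MeasureTheory Set Metric Filter Topology Pool.Agent.H93.EN
open Pool.Agent.H93.BL hiding T_B1 T_B2 T_B3 T_SB T_SC

/-- the pairs of points whose segment lies in an open set form an open set -/
theorem isOpen_seg {Ω : Set ℂ} (hΩ : IsOpen Ω) : IsOpen {z : ℂ × ℂ | segment ℝ z.1 z.2 ⊆ Ω} := by
  rw [isOpen_iff_eventually]
  rintro ⟨x₀, y₀⟩ h0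
  have hK : IsCompact (Icc (0 : ℝ) 1) := isCompact_Icc
  have hc : Continuous fun q : (ℂ × ℂ) × ℝ => q.1.1 + (q.2 : ℂ) * (q.1.2 - q.1.1) := by fun_prop
  have h1 := hK.eventually_forall_of_forall_eventually (x₀ := ((x₀, y₀) : ℂ × ℂ))
    (P := fun z t => z.1 + (t : ℂ) * (z.2 - z.1) ∈ Ω) (by
      intro t ht
      have hmem : ((x₀, y₀) : ℂ × ℂ).1 + (t : ℂ) * (((x₀, y₀) : ℂ × ℂ).2 - ((x₀, y₀) : ℂ × ℂ).1) ∈ Ω := by
        apply h0
        rw [segment_eq_image']
        exact ⟨t, ht, by simp⟩
      exact (hΩ.preimage hc).mem_nhds hmem)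
  filter_upwards [h1] with z hz
  intro y hy
  rw [segment_eq_image'] at hy
  obtain ⟨t, ht, rfl⟩ := hy
  have := hz t ht
  simpa using this

/-- the mean of the mollification is the mollification of the mean -/
theorem av_Ml (h2 : T_CH) {Φ : ℂ → ℂ → ℝ} (hΦ : Bd Φ) {δ : ℝ} (hδ : 0 < δ) (x : ℂ) :
    av (Ml Φ δ x) = ∫ y, chi δ (x - y) * av (Φ y) := by
  obtain ⟨-, -, -, -, C, -, hC⟩ := h2
  obtain ⟨hcd, hcs, hb, -, -, -, -, -, -⟩ := hC δ hδ
  have hπ : (0 : ℝ) ≤ 2 * Real.pi := by positivity
  have hchi : Integrable (fun y => chi δ (x - y)) :=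
    (hcd.continuous.integrable_of_hasCompactSupport hcs).comp_sub_left x
  have hint : Integrable (Function.uncurry fun (θ : ℝ) (y : ℂ) =>
      chi δ (x - y) * Φ y (Complex.exp ((θ : ℂ) * Complex.I)))
      ((volume.restrict (Ioc 0 (2 * Real.pi))).prod volume) := by
    have hg : Integrable (fun z : ℝ × ℂ => (1 : ℝ) * chi δ (x - z.2))
        ((volume.restrict (Ioc 0 (2 * Real.pi))).prod volume) := by
      apply Integrable.mul_prod (f := fun _ : ℝ => (1 : ℝ)) (g := fun y : ℂ => chi δ (x - y))
      · exact integrable_const _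
      · exact hchi
    refine hg.mono' ?_ ?_
    · apply Measurable.aestronglyMeasurable
      have m1 : Measurable fun z : ℝ × ℂ => chi δ (x - z.2) :=
        hcd.continuous.measurable.comp (measurable_const.sub measurable_snd)
      have m2 : Measurable fun z : ℝ × ℂ => (z.2, Complex.exp ((z.1 : ℂ) * Complex.I)) := by
        apply Measurable.prodMk measurable_snd
        fun_prop
      have m3 := hΦ.1.comp m2
      exact m1.mul m3
    · apply Eventually.of_forall
      rintro ⟨θ, y⟩
      have h3 := (hb (x - y)).1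
      have h4 := hΦ.2.1 y (Complex.exp ((θ : ℂ) * Complex.I))
      simp only [Function.uncurry, Real.norm_eq_abs, one_mul]
      rw [abs_of_nonneg (mul_nonneg h3 h4.1)]
      calc chi δ (x - y) * Φ y (Complex.exp ((θ : ℂ) * Complex.I)) ≤ chi δ (x - y) * 1 :=
            mul_le_mul_of_nonneg_left h4.2 h3
        _ = _ := mul_one _
  unfold av Ml
  rw [intervalIntegral.integral_of_le hπ, integral_integral_swap hint, ← integral_const_mul]
  congr 1
  ext y
  rw [intervalIntegral.integral_of_le hπ, integral_const_mul]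
  ring

/-- means of functions with values in the unit interval -/
theorem av_bd {g : ℂ → ℝ} (hg : Measurable g) (h : ∀ w, 0 ≤ g w ∧ g w ≤ 1) :
    0 ≤ av g ∧ av g ≤ 1 := by
  have hπ : (0 : ℝ) < 2 * Real.pi := by positivity
  have hm : Measurable fun θ : ℝ => g (Complex.exp ((θ : ℂ) * Complex.I)) :=
    hg.comp (by fun_prop)
  have hi : IntervalIntegrable (fun θ : ℝ => g (Complex.exp ((θ : ℂ) * Complex.I))) volume 0
      (2 * Real.pi) := by
    rw [intervalIntegrable_iff_integrableOn_Ioc_of_le hπ.le]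
    apply Integrable.mono' (g := fun _ => (1 : ℝ))
    · exact integrableOn_const measure_Ioc_lt_top.ne
    · exact hm.aestronglyMeasurable
    · apply Eventually.of_forall
      intro θ
      rw [Real.norm_eq_abs, abs_of_nonneg (h _).1]
      exact (h _).2
  constructor
  · unfold av
    apply mul_nonneg (by positivity)
    apply intervalIntegral.integral_nonneg hπ.le
    intro θ _
    exact (h _).1
  · unfold av
    have h1 : ∫ θ in (0 : ℝ)..(2 * Real.pi), g (Complex.exp ((θ : ℂ) * Complex.I)) ≤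
        ∫ θ in (0 : ℝ)..(2 * Real.pi), (1 : ℝ) := by
      apply intervalIntegral.integral_mono_on hπ.le hi (by simp)
      intro θ _
      exact (h _).2
    rw [intervalIntegral.integral_const, smul_eq_mul, mul_one, sub_zero] at h1
    calc (2 * Real.pi)⁻¹ * ∫ θ in (0 : ℝ)..(2 * Real.pi), g (Complex.exp ((θ : ℂ) * Complex.I))
        ≤ (2 * Real.pi)⁻¹ * (2 * Real.pi) := mul_le_mul_of_nonneg_left h1 (by positivity)
      _ = 1 := inv_mul_cancel₀ hπ.ne'

theorem av_meas {Φ : ℂ → ℂ → ℝ} (hΦ : Measurable (Function.uncurry Φ)) :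
    Measurable fun y => av (Φ y) := by
  have hπ : (0 : ℝ) ≤ 2 * Real.pi := by positivity
  unfold av
  simp only [intervalIntegral.integral_of_le hπ]
  apply Measurable.const_mul
  have m2 : Measurable fun z : ℂ × ℝ => (z.1, Complex.exp ((z.2 : ℂ) * Complex.I)) := by
    apply Measurable.prodMk measurable_fst
    fun_prop
  have m3 : StronglyMeasurable (Function.uncurry fun (y : ℂ) (θ : ℝ) =>
      Φ y (Complex.exp ((θ : ℂ) * Complex.I))) := (hΦ.comp m2).stronglyMeasurable
  exact (m3.integral_prod_right (ν := volume.restrict (Ioc 0 (2 * Real.pi)))).measurable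

theorem low (h1 : T_INT) (h2 : T_CH) (h3 : T_U0) (h4 : T_B2) : T_LOW := by
  intro ι D
  obtain ⟨c₀, hc₀, hlow⟩ := D.low
  obtain ⟨hΩm, hΩf, hf0m, hf0b, hρm, hρl, hINT⟩ := h1 ι D
  have hκ := D.κpos
  refine ⟨1 / c₀, min (D.κ / 10) (1 / 2), 1, by positivity,
    lt_min (by positivity) (by norm_num), one_pos, ?_⟩
  intro r hr δ hδ hδc
  have hrpos : 0 < r := hr.1
  have hδκ : δ ≤ D.κ / 10 * r := hδc.trans (mul_le_mul_of_nonneg_right (min_le_left _ _) hrpos.le)
  have hδh : δ ≤ 1 / 2 * r := hδc.trans (mul_le_mul_of_nonneg_right (min_le_right _ _) hrpos.le)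
  have hCH := h2
  obtain ⟨-, -, -, -, C, -, hC⟩ := h2
  obtain ⟨hcd, hcs, hcb, hc0, -, -, -, -, -⟩ := hC δ hδ
  have hcm : Measurable (chi δ) := hcd.continuous.measurable
  have hTo := isOpen_seg D.P.isOpen
  have hShm : MeasurableSet (D.Sh (2 * r) (12 * r)) := by
    have h : D.Sh (2 * r) (12 * r) = D.P.Ω ∩ (D.rho ⁻¹' (Icc (2 * r) (12 * r))) := by
      ext x; exact Iff.rfl
    rw [h]; exact hΩm.inter (hρm measurableSet_Icc)
  have hAnm : MeasurableSet (D.Ann r (16 * r)) := by
    have h : D.Ann r (16 * r) = D.P.Ω ∩ (D.rho ⁻¹' (Ioo r (16 * r))) := by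
      ext x; exact Iff.rfl
    rw [h]; exact hΩm.inter (hρm measurableSet_Ioo)
  have hAnOM : D.Ann r (16 * r) ⊆ D.OM δ := by
    intro x hx
    refine ⟨hx.1, ?_⟩
    have h6 : D.κ * r < D.κ * D.rho x := mul_lt_mul_of_pos_left hx.2.1 hκ
    have h7 : 0 < D.κ * r := by positivity
    linarith
  have hShf : volume (D.Sh (2 * r) (12 * r)) < ⊤ :=
    lt_of_le_of_lt (measure_mono fun x hx => hx.1) hΩf
  -- the two integrals as lower integrals
  have hf0i : IntegrableOn D.f0 (D.Sh (2 * r) (12 * r)) := by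
    apply Integrable.mono' (g := fun _ => (1 : ℝ)) (integrableOn_const hShf.ne)
    · exact hf0m.aestronglyMeasurable
    · apply Eventually.of_forall
      intro x
      rw [Real.norm_eq_abs, abs_of_nonneg (hf0b x).1]
      exact (hf0b x).2
  have hai : IntegrableOn (D.a δ) (D.Ann r (16 * r)) := (hINT δ hδ _ hAnOM hAnm).1
  have hanon : ∀ x, 0 ≤ D.a δ x := by
    intro x
    have hX := D.Xb x
    rw [Dat.a, av_Ml hCH hX hδ x]
    apply integral_nonneg
    intro y
    exact mul_nonneg (hcb _).1 (av_bd (hX.1.comp measurable_prodMk_left) (hX.2.1 y)).1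
  obtain ⟨G, hG⟩ : ∃ G : ℂ → ℂ → ENNReal, ∀ x y, G x y =
      Set.indicator {z : ℂ × ℂ | segment ℝ z.1 z.2 ⊆ D.P.Ω}
        (fun z => ENNReal.ofReal (chi δ (z.1 - z.2) * D.f0 z.2)) (x, y) := ⟨_, fun x y => rfl⟩
  have hGm : Measurable (Function.uncurry G) := by
    have h6 : Function.uncurry G = Set.indicator {z : ℂ × ℂ | segment ℝ z.1 z.2 ⊆ D.P.Ω}
        (fun z => ENNReal.ofReal (chi δ (z.1 - z.2) * D.f0 z.2)) := by
      ext z
      obtain ⟨x, y⟩ := z
      simp only [Function.uncurry, hG]
    rw [h6]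
    apply Measurable.indicator _ hTo.measurableSet
    apply ENNReal.measurable_ofReal.comp
    exact (hcm.comp (measurable_fst.sub measurable_snd)).mul (hf0m.comp measurable_snd)
  -- Step A
  have hA : ∀ y ∈ D.Sh (2 * r) (12 * r), ENNReal.ofReal (c₀ * D.f0 y) ≤ ∫⁻ x, G x y := by
    intro y hy
    have hy1 : δ ≤ D.κ * infDist y D.B := by
      have h6 : D.κ * (2 * r) ≤ D.κ * D.rho y := mul_le_mul_of_nonneg_left hy.2.1 hκ.le
      have h7 : 0 < D.κ * r := by positivity
      have h8 : D.κ * D.rho y = D.κ * infDist y D.B := rfl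
      linarith
    have h6 := hlow y hy.1 δ hδ hy1
    have hSy : MeasurableSet {x : ℂ | segment ℝ x y ⊆ D.P.Ω} := by
      have h7 : {x : ℂ | segment ℝ x y ⊆ D.P.Ω} =
          (fun x : ℂ => (x, y)) ⁻¹' {z : ℂ × ℂ | segment ℝ z.1 z.2 ⊆ D.P.Ω} := rfl
      rw [h7]
      exact measurable_prodMk_right hTo.measurableSet
    have hci : Integrable fun x => chi δ (x - y) :=
      (hcd.continuous.integrable_of_hasCompactSupport hcs).comp_sub_right y
    have h8 : c₀ * D.f0 y ≤ ∫ x in {x : ℂ | segment ℝ x y ⊆ D.P.Ω}, chi δ (x - y) * D.f0 y := by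
      rw [integral_mul_const]
      exact mul_le_mul_of_nonneg_right h6 (hf0b y).1
    refine (ENNReal.ofReal_le_ofReal h8).trans ?_
    rw [ofReal_integral_eq_lintegral_ofReal ((hci.mul_const _).integrableOn)
      (Eventually.of_forall fun x => mul_nonneg (hcb _).1 (hf0b y).1)]
    rw [← lintegral_indicator hSy]
    apply lintegral_mono
    intro x
    simp only [hG, Set.indicator, Set.mem_ofPred_eq]
    exact le_rfl
  -- Step C
  have hCz : ∀ x, x ∉ D.Ann r (16 * r) → ∫⁻ y in D.Sh (2 * r) (12 * r), G x y = 0 := by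
    intro x hx
    have hz : ∀ y ∈ D.Sh (2 * r) (12 * r), G x y = 0 := by
      intro y hy
      rw [hG]
      by_cases hs : segment ℝ x y ⊆ D.P.Ω
      · by_cases hd : δ ≤ ‖x - y‖
        · rw [Set.indicator_of_mem (by exact hs)]
          simp only [hc0 _ hd, zero_mul, ENNReal.ofReal_zero]
        · exfalso
          apply hx
          push Not at hd
          have h6 := hρl x y
          rw [abs_le, dist_eq_norm] at h6
          have h7 := hy.2.1
          have h8 := hy.2.2
          refine ⟨hs (left_mem_segment ℝ x y), ?_, ?_⟩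
          · linarith [h6.1]
          · linarith [h6.2]
      · rw [Set.indicator_of_notMem (by exact hs)]
    rw [setLIntegral_congr_fun hShm hz, lintegral_zero]
  -- Step D
  have hD : ∀ x ∈ D.Ann r (16 * r), ∫⁻ y, G x y ≤ ENNReal.ofReal (D.a δ x) := by
    intro x hx
    have hX := D.Xb x
    have hav : ∀ y, 0 ≤ av (D.X x y) ∧ av (D.X x y) ≤ 1 := fun y =>
      av_bd (hX.1.comp measurable_prodMk_left) (hX.2.1 y)
    have hci : Integrable fun y => chi δ (x - y) :=
      (hcd.continuous.integrable_of_hasCompactSupport hcs).comp_sub_left x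
    have hpi : Integrable fun y => chi δ (x - y) * av (D.X x y) := by
      refine hci.mono' ?_ ?_
      · exact ((hcm.comp (measurable_const.sub measurable_id)).mul
          (av_meas hX.1)).aestronglyMeasurable
      · apply Eventually.of_forall
        intro y
        rw [Real.norm_eq_abs, abs_of_nonneg (mul_nonneg (hcb _).1 (hav y).1)]
        calc chi δ (x - y) * av (D.X x y) ≤ chi δ (x - y) * 1 :=
              mul_le_mul_of_nonneg_left (hav y).2 (hcb _).1
          _ = _ := mul_one _
    rw [Dat.a, av_Ml hCH hX hδ x, ofReal_integral_eq_lintegral_ofReal hpi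
      (Eventually.of_forall fun y => mul_nonneg (hcb _).1 (hav y).1)]
    apply lintegral_mono_ae
    filter_upwards [D.own x hx.1] with y hy
    rw [hG]
    by_cases hs : segment ℝ x y ⊆ D.P.Ω
    · rw [Set.indicator_of_mem (by exact hs)]
      by_cases hd : δ ≤ ‖x - y‖
      · simp only [hc0 _ hd, zero_mul, ENNReal.ofReal_zero]
        exact le_rfl
      · push Not at hd
        have hyb : y ∈ ball x (D.κ * infDist x D.B) := by
          rw [mem_ball, dist_comm, dist_eq_norm]
          have h6 : D.κ * r < D.κ * D.rho x := mul_lt_mul_of_pos_left hx.2.1 hκ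
          have h7 : 0 < D.κ * r := by positivity
          have h8 : D.κ * D.rho x = D.κ * infDist x D.B := rfl
          linarith
        have h9 := hy hyb hs
        have h10 : D.f0 y = av (D.X x y) := by
          unfold Dat.f0
          congr 1
          ext w
          exact (h9 w).symm
        rw [h10]
    · rw [Set.indicator_of_notMem (by exact hs)]
      exact zero_le
  -- conclusion
  have hL : ENNReal.ofReal (∫ y in D.Sh (2 * r) (12 * r), c₀ * D.f0 y) ≤
      ENNReal.ofReal (∫ x in D.Ann r (16 * r), D.a δ x) := by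
    rw [ofReal_integral_eq_lintegral_ofReal (hf0i.const_mul c₀)
      (Eventually.of_forall fun y => mul_nonneg hc₀.le (hf0b y).1)]
    rw [ofReal_integral_eq_lintegral_ofReal hai (Eventually.of_forall fun x => hanon x)]
    calc ∫⁻ y in D.Sh (2 * r) (12 * r), ENNReal.ofReal (c₀ * D.f0 y)
        ≤ ∫⁻ y in D.Sh (2 * r) (12 * r), ∫⁻ x, G x y := setLIntegral_mono' hShm hA
      _ = ∫⁻ x, ∫⁻ y in D.Sh (2 * r) (12 * r), G x y := by
          apply lintegral_lintegral_swap
          apply Measurable.aemeasurable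
          exact hGm.comp measurable_swap
      _ ≤ ∫⁻ x, (D.Ann r (16 * r)).indicator (fun x => ∫⁻ y, G x y) x := by
          apply lintegral_mono
          intro x
          by_cases hx : x ∈ D.Ann r (16 * r)
          · simp only [Set.indicator_of_mem hx]
            exact lintegral_mono' Measure.restrict_le_self le_rfl
          · simp only [Set.indicator_of_notMem hx, hCz x hx]
            exact le_rfl
      _ = ∫⁻ x in D.Ann r (16 * r), ∫⁻ y, G x y := lintegral_indicator hAnm _
      _ ≤ ∫⁻ x in D.Ann r (16 * r), ENNReal.ofReal (D.a δ x) := setLIntegral_mono' hAnm hD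
  have hR0 : 0 ≤ ∫ x in D.Ann r (16 * r), D.a δ x := integral_nonneg fun x => hanon x
  rw [ENNReal.ofReal_le_ofReal_iff hR0, integral_const_mul] at hL
  rw [div_mul_eq_mul_div, one_mul, le_div_iff₀ hc₀]
  linarith

end Pool.Agent.H7.EN
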