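import Pool.Agent.H93.EN.Targets4

/-!
# Bright corners: the pigeonhole argument (row PIG of en_modules)
-/

set_option autoImplicit false

namespace Pool.Agent.H7.EN

open MeasureTheory Set Metric Filter Topology Pool.Agent.H93.EN
open Pool.Agent.H93.BL hiding T_B1 T_B2 T_B3 T_SB T_SC

section basics

variable {ι : Type} (D : Dat ι)

theorem ann_meas (h5 : T_INT) (a b : ℝ) : MeasurableSet (D.Ann a b) := by
  obtain ⟨hΩ, -, -, -, hρ, -⟩ := h5 ι D
  have h : D.Ann a b = D.P.Ω ∩ (D.rho ⁻¹' (Ioo a b)) := by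
    ext x; exact Iff.rfl
  rw [h]
  exact hΩ.inter (hρ measurableSet_Ioo)

theorem out_meas (h5 : T_INT) (a : ℝ) : MeasurableSet (D.Out a) := by
  obtain ⟨hΩ, -, -, -, hρ, -⟩ := h5 ι D
  have h : D.Out a = D.P.Ω ∩ (D.rho ⁻¹' (Ici a)) := by
    ext x; exact Iff.rfl
  rw [h]
  exact hΩ.inter (hρ measurableSet_Ici)

/-- the elementary inequality between the first and the second moment -/
theorem first_second (S : Set ℂ) (hS : volume S < ⊤) (g : ℂ → ℝ)
    (hg1 : IntegrableOn g S) (hg2 : IntegrableOn (fun x => g x ^ 2) S) (lam : ℝ) (hl : 0 < lam) :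
    ∫ x in S, g x ≤ lam / 2 * (volume S).toReal + 1 / (2 * lam) * ∫ x in S, g x ^ 2 := by
  have hc : IntegrableOn (fun _ : ℂ => lam / 2) S := by
    exact integrableOn_const hS.ne
  have h1 : ∫ x in S, g x ≤ ∫ x in S, (lam / 2 + 1 / (2 * lam) * g x ^ 2) := by
    apply integral_mono hg1 (hc.add (hg2.const_mul _))
    intro x
    have h2 : 0 ≤ (lam - g x) ^ 2 / (2 * lam) := by positivity
    have h3 : (lam - g x) ^ 2 / (2 * lam) = lam / 2 + 1 / (2 * lam) * g x ^ 2 - g x := by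
      field_simp
      ring
    change g x ≤ lam / 2 + 1 / (2 * lam) * g x ^ 2
    linarith
  refine h1.trans (le_of_eq ?_)
  rw [integral_add hc (hg2.const_mul _), integral_const_mul, setIntegral_const, smul_eq_mul]
  rw [Measure.real]
  ring

end basics

theorem pig (h1 : T_DEC) (h2 : T_LOW) (h3 : T_EN0) (h4 : T_VOL) (h5 : T_INT) : T_PIG := by
  intro ι _ D hG ε hε r₀ hr₀
  obtain ⟨CL, cL, rL, hCL, hcL, hrL, hLOW⟩ := h2 ι D
  obtain ⟨K, C, r₁, c₁, hC, hr₁, hc₁, hDEC⟩ := h1 ι D hG (ε / (2 * CL)) (by positivity)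
  obtain ⟨CE, hCE, cE, hcE, δ₀, hδ₀, hEN⟩ := h3 ι D
  obtain ⟨CV, hCV, hVOL⟩ := h4 ι D
  obtain ⟨hΩm, hΩf, hf0m, hf0b, hρm, hρl, hINT⟩ := h5 ι D
  obtain ⟨Ks, hKs⟩ : ∃ Ks : Finset ℤ, Ks = Finset.Icc (-(K : ℤ)) K := ⟨_, rfl⟩
  obtain ⟨K', hK'⟩ : ∃ K' : ℝ, K' = (Ks.card : ℝ) := ⟨_, rfl⟩
  have hK'pos : 0 < K' := by
    rw [hK', hKs]
    have : (0 : ℤ) ∈ Finset.Icc (-(K : ℤ)) K := by
      rw [Finset.mem_Icc]; constructor <;> omega
    exact_mod_cast Finset.card_pos.mpr ⟨0, this⟩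
  obtain ⟨e1, he1⟩ : ∃ e1 : ℝ, e1 = ε / (2 * CL) := ⟨_, rfl⟩
  have he1pos : 0 < e1 := by rw [he1]; positivity
  obtain ⟨μ, hμ⟩ : ∃ μ : ℝ, μ = e1 / (256 * C * K' * CV) := ⟨_, rfl⟩
  have hμpos : 0 < μ := by rw [hμ]; positivity
  obtain ⟨τ, hτ⟩ : ∃ τ : ℝ, τ = e1 * μ / C := ⟨_, rfl⟩
  have hτpos : 0 < τ := by rw [hτ]; positivity
  obtain ⟨N, hN⟩ := exists_nat_gt (K' * CE / τ)
  have hNpos : 0 < N := by
    have h0 : 0 ≤ K' * CE / τ := by positivity
    have h6 : (0 : ℝ) < N := lt_of_le_of_lt h0 hN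
    exact_mod_cast h6
  obtain ⟨rs, hrs⟩ : ∃ rs : ℝ, rs = min r₀ (min r₁ rL) / 2 := ⟨_, rfl⟩
  have hrspos : 0 < rs := by
    rw [hrs]; exact half_pos (lt_min hr₀ (lt_min hr₁ hrL))
  have hrs0 : rs < r₀ := by
    have : min r₀ (min r₁ rL) ≤ r₀ := min_le_left _ _
    have h6 : 0 < min r₀ (min r₁ rL) := lt_min hr₀ (lt_min hr₁ hrL)
    rw [hrs]; linarith
  have hrs1 : rs < r₁ := by
    have : min r₀ (min r₁ rL) ≤ r₁ := (min_le_right _ _).trans (min_le_left _ _)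
    have h6 : 0 < min r₀ (min r₁ rL) := lt_min hr₀ (lt_min hr₁ hrL)
    rw [hrs]; linarith
  have hrsL : rs < rL := by
    have : min r₀ (min r₁ rL) ≤ rL := (min_le_right _ _).trans (min_le_right _ _)
    have h6 : 0 < min r₀ (min r₁ rL) := lt_min hr₀ (lt_min hr₁ hrL)
    rw [hrs]; linarith
  obtain ⟨rn, hrn⟩ : ∃ rn : ℕ → ℝ, ∀ n, rn n = rs / 16 ^ n := ⟨_, fun n => rfl⟩
  have hrnpos : ∀ n, 0 < rn n := by intro n; rw [hrn]; positivity
  have hanti : ∀ m n, m ≤ n → rn n ≤ rn m := by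
    intro m n hmn
    rw [hrn, hrn]
    apply div_le_div_of_nonneg_left hrspos.le (by positivity)
    exact pow_le_pow_right₀ (by norm_num) hmn
  have hstep : ∀ m n, m < n → 16 * rn n ≤ rn m := by
    intro m n hmn
    have h6 := hanti (m + 1) n hmn
    have h7 : 16 * rn (m + 1) = rn m := by
      rw [hrn, hrn, pow_succ]; field_simp
    linarith
  have hrle : ∀ n, rn n ≤ rs := by
    intro n
    have := hanti 0 n (Nat.zero_le _)
    rw [hrn 0] at this; simpa using this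
  obtain ⟨δ, hδ⟩ : ∃ δ : ℝ, δ = min (cL * rn N) (min (c₁ * rn N) (min (cE * rn N) (δ₀ / 2))) :=
    ⟨_, rfl⟩
  have hδpos : 0 < δ := by
    rw [hδ]
    have := hrnpos N
    exact lt_min (by positivity) (lt_min (by positivity) (lt_min (by positivity) (by positivity)))
  have hδL : δ ≤ cL * rn N := by rw [hδ]; exact min_le_left _ _
  have hδ1 : δ ≤ c₁ * rn N := by rw [hδ]; exact (min_le_right _ _).trans (min_le_left _ _)
  have hδE : δ ≤ cE * rn N := by
    rw [hδ]; exact (min_le_right _ _).trans ((min_le_right _ _).trans (min_le_left _ _))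
  have hδ0 : δ < δ₀ := by
    have : δ ≤ δ₀ / 2 := by
      rw [hδ]; exact (min_le_right _ _).trans ((min_le_right _ _).trans (min_le_right _ _))
    linarith
  obtain ⟨hOM, hE⟩ := hEN δ ⟨hδpos, hδ0⟩
  have hOutOM : D.Out (δ / cE) ⊆ D.OM δ := by
    intro x hx
    refine ⟨hx.1, ?_⟩
    have h6 : δ ≤ cE * D.rho x := by
      have := hx.2
      rw [div_le_iff₀ hcE] at this
      linarith
    have := hOM x h6
    linarith
  have hAnnOut : ∀ n, n < N → D.Ann (rn n) (16 * rn n) ⊆ D.Out (δ / cE) := by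
    intro n hn x hx
    refine ⟨hx.1, ?_⟩
    rw [div_le_iff₀ hcE]
    have h6 := hanti n N hn.le
    have h7 : rn N ≤ D.rho x := h6.trans hx.2.1.le
    have h8 : cE * rn N ≤ cE * D.rho x := mul_le_mul_of_nonneg_left h7 hcE.le
    linarith
  have hAm : ∀ n, MeasurableSet (D.Ann (rn n) (16 * rn n)) := fun n => ann_meas D h5 _ _
  have hint2 : ∀ m : ℤ, IntegrableOn (fun x => ‖D.h δ m x‖ ^ 2) (D.Out (δ / cE)) := fun m =>
    ((hINT δ hδpos _ hOutOM (out_meas D h5 _)).2 m).2.1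
  have hint1 : ∀ m : ℤ, IntegrableOn (fun x => ‖D.h δ m x‖) (D.Out (δ / cE)) := fun m =>
    ((hINT δ hδpos _ hOutOM (out_meas D h5 _)).2 m).1
  -- the sum over the annuli
  have hsum : ∀ m : ℤ, ∑ n ∈ Finset.range N, ∫ x in D.Ann (rn n) (16 * rn n), ‖D.h δ m x‖ ^ 2
      ≤ CE := by
    intro m
    rw [← integral_biUnion_finset (Finset.range N) (fun n _ => hAm n) ?_ ?_]
    · refine le_trans ?_ (hE m)
      apply setIntegral_mono_set (hint2 m)
      · exact Eventually.of_forall fun x => by positivity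
      · apply Eventually.of_forall
        intro x hx
        have hx' : x ∈ ⋃ i ∈ Finset.range N, D.Ann (rn i) (16 * rn i) := hx
        simp only [mem_iUnion, Finset.mem_range] at hx'
        obtain ⟨n, hn, hxn⟩ := hx'
        exact hAnnOut n hn hxn
    · intro n hn n' hn' hne
      have key : ∀ a b, a < b → Disjoint (D.Ann (rn a) (16 * rn a)) (D.Ann (rn b) (16 * rn b)) := by
        intro a b hab
        rw [Set.disjoint_left]
        intro x hxa hxb
        have h6 := hstep a b hab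
        have h7 := hxa.2.1
        have h8 := hxb.2.2
        linarith
      rcases lt_or_gt_of_ne hne with h6 | h6
      · exact key n n' h6
      · exact (key n' n h6).symm
    · intro n hn
      exact (hint2 m).mono_set (hAnnOut n (Finset.mem_range.mp hn))
  have hsum2 : ∑ n ∈ Finset.range N, ∑ m ∈ Ks,
      ∫ x in D.Ann (rn n) (16 * rn n), ‖D.h δ m x‖ ^ 2 ≤ ∑ n ∈ Finset.range N, τ := by
    rw [Finset.sum_comm]
    have h6 : ∑ m ∈ Ks, ∑ n ∈ Finset.range N,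
        ∫ x in D.Ann (rn n) (16 * rn n), ‖D.h δ m x‖ ^ 2 ≤ ∑ m ∈ Ks, CE :=
      Finset.sum_le_sum fun m _ => hsum m
    refine h6.trans ?_
    rw [Finset.sum_const, Finset.sum_const, nsmul_eq_mul, nsmul_eq_mul, Finset.card_range, ← hK']
    rw [div_lt_iff₀ hτpos] at hN
    exact hN.le
  obtain ⟨n, hn, hle⟩ := Finset.exists_le_of_sum_le
    (Finset.nonempty_range_iff.mpr hNpos.ne') hsum2
  rw [Finset.mem_range] at hn
  obtain ⟨r, hr⟩ : ∃ r : ℝ, r = rn n := ⟨_, rfl⟩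
  rw [← hr] at hle
  have hrpos : 0 < r := by rw [hr]; exact hrnpos n
  have hrlt : r ≤ rs := by rw [hr]; exact hrle n
  have hrN : rn N ≤ r := by rw [hr]; exact hanti n N hn.le
  have hAO : D.Ann r (16 * r) ⊆ D.Out (δ / cE) := by rw [hr]; exact hAnnOut n hn
  refine ⟨r, ⟨hrpos, lt_of_le_of_lt hrlt hrs0⟩, ?_⟩
  have hδLr : δ ≤ cL * r := hδL.trans (mul_le_mul_of_nonneg_left hrN hcL.le)
  have hδ1r : δ ≤ c₁ * r := hδ1.trans (mul_le_mul_of_nonneg_left hrN hc₁.le)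
  have hA := hLOW r ⟨hrpos, lt_of_le_of_lt hrlt hrsL⟩ δ hδpos hδLr
  have hB := hDEC r ⟨hrpos, lt_of_le_of_lt hrlt hrs1⟩ δ hδpos hδ1r
  rw [← he1, ← hKs] at hB
  -- the volume of the annulus
  have hvol : (volume (D.Ann r (16 * r))).toReal ≤ 256 * CV * r ^ 2 := by
    have h6 : volume (D.Ann r (16 * r)) ≤ ENNReal.ofReal (CV * (16 * r) ^ 2) :=
      (measure_mono (fun x hx => hx.2.2.le)).trans (hVOL (16 * r) (by positivity))
    have h7 := ENNReal.toReal_mono ENNReal.ofReal_ne_top h6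
    rw [ENNReal.toReal_ofReal (by positivity)] at h7
    linarith
  have hvf : volume (D.Ann r (16 * r)) < ⊤ :=
    lt_of_le_of_lt (measure_mono (fun x hx => hx.1)) hΩf
  have hfirst : ∀ m : ℤ, ∫ x in D.Ann r (16 * r), ‖D.h δ m x‖ ≤
      128 * CV * μ * r + r / (2 * μ) * ∫ x in D.Ann r (16 * r), ‖D.h δ m x‖ ^ 2 := by
    intro m
    have h6 := first_second (D.Ann r (16 * r)) hvf (fun x => ‖D.h δ m x‖)
      ((hint1 m).mono_set hAO) ((hint2 m).mono_set hAO) (μ / r) (by positivity)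
    have h7 : μ / r / 2 * (volume (D.Ann r (16 * r))).toReal ≤ μ / r / 2 * (256 * CV * r ^ 2) :=
      mul_le_mul_of_nonneg_left hvol (by positivity)
    have h8 : μ / r / 2 * (256 * CV * r ^ 2) = 128 * CV * μ * r := by
      field_simp; ring
    have h9 : 1 / (2 * (μ / r)) = r / (2 * μ) := by field_simp
    rw [h9] at h6
    rw [h8] at h7
    linarith
  have hsum3 : ∑ m ∈ Ks, ∫ x in D.Ann r (16 * r), ‖D.h δ m x‖ ≤
      K' * (128 * CV * μ * r) + r / (2 * μ) * τ := by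
    have h6 : ∑ m ∈ Ks, ∫ x in D.Ann r (16 * r), ‖D.h δ m x‖ ≤
        ∑ m ∈ Ks, (128 * CV * μ * r + r / (2 * μ) * ∫ x in D.Ann r (16 * r), ‖D.h δ m x‖ ^ 2) :=
      Finset.sum_le_sum fun m _ => hfirst m
    rw [Finset.sum_add_distrib, Finset.sum_const, nsmul_eq_mul, ← hK', ← Finset.mul_sum] at h6
    have h7 : r / (2 * μ) * ∑ m ∈ Ks, ∫ x in D.Ann r (16 * r), ‖D.h δ m x‖ ^ 2 ≤
        r / (2 * μ) * τ := mul_le_mul_of_nonneg_left hle (by positivity)
    linarith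
  have hfin : C * r * ∑ m ∈ Ks, ∫ x in D.Ann r (16 * r), ‖D.h δ m x‖ ≤ e1 * r ^ 2 := by
    have h6 : C * r * ∑ m ∈ Ks, ∫ x in D.Ann r (16 * r), ‖D.h δ m x‖ ≤
        C * r * (K' * (128 * CV * μ * r) + r / (2 * μ) * τ) :=
      mul_le_mul_of_nonneg_left hsum3 (by positivity)
    refine h6.trans (le_of_eq ?_)
    have h7 : C * r * (K' * (128 * CV * μ * r)) = e1 * r ^ 2 / 2 := by
      rw [hμ]; field_simp; ring
    have h8 : C * r * (r / (2 * μ) * τ) = e1 * r ^ 2 / 2 := by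
      rw [hτ]; field_simp
    rw [mul_add, h7, h8]; ring
  calc ∫ y in D.Sh (2 * r) (12 * r), D.f0 y ≤ CL * ∫ x in D.Ann r (16 * r), D.a δ x := hA
    _ ≤ CL * (e1 * r ^ 2 + e1 * r ^ 2) := by
        apply mul_le_mul_of_nonneg_left _ hCL.le
        linarith
    _ = ε * r ^ 2 := by rw [he1]; field_simp; ring

end Pool.Agent.H7.EN
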